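import Pool.Agent.H297R2.LG.Defs

/-! Classification of the solutions of `n_B n_A' = n n_A n_B'` (task 07 of the LG project). -/

open Complex Filter Topology Set MeasureTheory

namespace LG

open SG (hh nn dd dl ord NZ)
open SP (RHs ZZ mu wt Mk Par Eb PS chi qq tt)

namespace Cls

/-- indicator -/
def ic (A : Finset ℕ) (x : ℕ) : ℕ := if x ∈ A then 1 else 0

theorem nA_ne (A : Finset ℕ) (hA : ∀ p ∈ A, p.Prime) : nA A ≠ 0 := by
  unfold nA
  exact Finset.prod_ne_zero_iff.mpr (fun p hp => (hA p hp).ne_zero)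

theorem nA_fact (A : Finset ℕ) (hA : ∀ p ∈ A, p.Prime) (x : ℕ) :
    (nA A).factorization x = ic A x := by
  unfold nA ic
  rw [Nat.factorization_prod (fun p hp => (hA p hp).ne_zero)]
  rw [Finsupp.finset_sum_apply]
  have h : ∀ p ∈ A, (p.factorization) x = if p = x then 1 else 0 := by
    intro p hp
    rw [(hA p hp).factorization, Finsupp.single_apply]
  rw [Finset.sum_congr rfl h]
  simp

theorem eq_iff (A B A' B' : Finset ℕ) (hA : ∀ p ∈ A, p.Prime) (hB : ∀ p ∈ B, p.Prime)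
    (hA' : ∀ p ∈ A', p.Prime) (hB' : ∀ p ∈ B', p.Prime) (p k : ℕ) (hp : p.Prime) :
    nA B * nA A' = p ^ k * (nA A * nA B') ↔
      ∀ x, ic B x + ic A' x = (if x = p then k else 0) + (ic A x + ic B' x) := by
  have h1 : nA B * nA A' ≠ 0 := mul_ne_zero (nA_ne B hB) (nA_ne A' hA')
  have h2 : nA A * nA B' ≠ 0 := mul_ne_zero (nA_ne A hA) (nA_ne B' hB')
  have h3 : p ^ k ≠ 0 := pow_ne_zero _ hp.ne_zero
  have hL : ∀ x, (nA B * nA A').factorization x = ic B x + ic A' x := by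
    intro x
    rw [Nat.factorization_mul (nA_ne B hB) (nA_ne A' hA'), Finsupp.add_apply, nA_fact B hB,
      nA_fact A' hA']
  have hR : ∀ x, (p ^ k * (nA A * nA B')).factorization x =
      (if x = p then k else 0) + (ic A x + ic B' x) := by
    intro x
    rw [Nat.factorization_mul h3 h2, Finsupp.add_apply,
      Nat.factorization_mul (nA_ne A hA) (nA_ne B' hB'), Finsupp.add_apply, nA_fact A hA,
      nA_fact B' hB', hp.factorization_pow, Finsupp.single_apply]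
    congr 1
    by_cases h : p = x
    · rw [if_pos h, if_pos h.symm]
    · rw [if_neg h, if_neg (fun h' => h h'.symm)]
  constructor
  · intro h x
    rw [← hL, ← hR, h]
  · intro h
    apply Nat.eq_of_factorization_eq h1 (mul_ne_zero h3 h2)
    intro x
    rw [hL, hR]
    exact h x

theorem ic_le (A : Finset ℕ) (x : ℕ) : ic A x ≤ 1 := by
  unfold ic; split_ifs <;> omega

theorem ic_one {A : Finset ℕ} {x : ℕ} : ic A x = 1 ↔ x ∈ A := by
  unfold ic; split_ifs with h <;> simp [h]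

theorem ic_zero {A : Finset ℕ} {x : ℕ} : ic A x = 0 ↔ x ∉ A := by
  unfold ic; split_ifs with h <;> simp [h]

theorem disj_ic {A B : Finset ℕ} (h : Disjoint A B) (x : ℕ) : ic A x + ic B x ≤ 1 := by
  by_cases h1 : x ∈ A
  · have h2 : x ∉ B := Finset.disjoint_left.mp h h1
    rw [ic_one.mpr h1, ic_zero.mpr h2]
  · rw [ic_zero.mpr h1]
    have := ic_le B x
    omega

theorem ext_ic {A B : Finset ℕ} (h : ∀ x, ic A x = ic B x) : A = B := by
  ext x
  rw [← ic_one, ← ic_one, h x]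

theorem ic_insert (A : Finset ℕ) (p x : ℕ) (hp : p ∉ A) :
    ic (insert p A) x = (if x = p then 1 else 0) + ic A x := by
  unfold ic
  by_cases h : x = p
  · subst h; simp [hp]
  · simp [h]

theorem mem_fam {P : Par} {B0 : ℕ} {T : ℝ} {A : Finset ℕ} :
    A ∈ fam P B0 T ↔ A ⊆ PS P T ∧ ∑ p ∈ A, Eb P T p ≤ B0 := by
  simp [fam]

theorem mem_prs {P : Par} {B0 : ℕ} {T : ℝ} {q : Finset ℕ × Finset ℕ} :
    q ∈ prs P B0 T ↔ (q.1 ∈ fam P B0 T ∧ q.2 ∈ fam P B0 T) ∧ Disjoint q.1 q.2 := by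
  simp [prs]

theorem prime_PS {P : Par} {T : ℝ} {p : ℕ} (h : p ∈ PS P T) : p.Prime := by
  simp only [PS, Finset.mem_filter] at h
  exact h.2.1

theorem fam_prime {P : Par} {B0 : ℕ} {T : ℝ} {A : Finset ℕ} (h : A ∈ fam P B0 T) :
    ∀ p ∈ A, p.Prime := fun _ hp => prime_PS ((mem_fam.mp h).1 hp)

/-- the set of solutions -/
noncomputable def Sol (P : Par) (B0 : ℕ) (T : ℝ) (n : ℕ) :
    Finset ((Finset ℕ × Finset ℕ) × (Finset ℕ × Finset ℕ)) :=
  (prs P B0 T ×ˢ prs P B0 T).filter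
    (fun z => nA z.1.2 * nA z.2.1 = n * (nA z.1.1 * nA z.2.2))

theorem Cn_Sol (P : Par) (B0 : ℕ) (r : ℝ) (F : ℕ → ℝ) (T : ℝ) (n : ℕ) :
    Cn P B0 r F T n = ∑ z ∈ Sol P B0 T n,
      (ae P r F T z.1.1 * ae P r F T z.1.2) * (ae P r F T z.2.1 * ae P r F T z.2.2) := by
  unfold Cn Sol
  rw [Finset.sum_filter, Finset.sum_product]

theorem mem_Sol {P : Par} {B0 : ℕ} {T : ℝ} {n : ℕ}
    {z : (Finset ℕ × Finset ℕ) × (Finset ℕ × Finset ℕ)} :
    z ∈ Sol P B0 T n ↔ (z.1 ∈ prs P B0 T ∧ z.2 ∈ prs P B0 T) ∧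
      nA z.1.2 * nA z.2.1 = n * (nA z.1.1 * nA z.2.2) := by
  simp [Sol]

theorem mem_Sol_pow {P : Par} {B0 : ℕ} {T : ℝ} {p k : ℕ} (hp : p.Prime)
    {z : (Finset ℕ × Finset ℕ) × (Finset ℕ × Finset ℕ)} :
    z ∈ Sol P B0 T (p ^ k) ↔ (z.1 ∈ prs P B0 T ∧ z.2 ∈ prs P B0 T) ∧
      ∀ x, ic z.1.2 x + ic z.2.1 x = (if x = p then k else 0) + (ic z.1.1 x + ic z.2.2 x) := by
  rw [mem_Sol]
  constructor
  · rintro ⟨⟨h1, h2⟩, h3⟩
    refine ⟨⟨h1, h2⟩, ?_⟩
    obtain ⟨⟨a1, a2⟩, a3⟩ := mem_prs.mp h1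
    obtain ⟨⟨b1, b2⟩, b3⟩ := mem_prs.mp h2
    exact (eq_iff z.1.1 z.1.2 z.2.1 z.2.2 (fam_prime a1) (fam_prime a2) (fam_prime b1)
      (fam_prime b2) p k hp).mp h3
  · rintro ⟨⟨h1, h2⟩, h3⟩
    refine ⟨⟨h1, h2⟩, ?_⟩
    obtain ⟨⟨a1, a2⟩, a3⟩ := mem_prs.mp h1
    obtain ⟨⟨b1, b2⟩, b3⟩ := mem_prs.mp h2
    exact (eq_iff z.1.1 z.1.2 z.2.1 z.2.2 (fam_prime a1) (fam_prime a2) (fam_prime b1)
      (fam_prime b2) p k hp).mpr h3

theorem prs_swap {P : Par} {B0 : ℕ} {T : ℝ} {A B : Finset ℕ} (h : (A, B) ∈ prs P B0 T) :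
    (B, A) ∈ prs P B0 T := by
  obtain ⟨⟨h1, h2⟩, h3⟩ := mem_prs.mp h
  exact mem_prs.mpr ⟨⟨h2, h1⟩, h3.symm⟩

theorem fam_insert {P : Par} {B0 : ℕ} {T : ℝ} {A : Finset ℕ} {p : ℕ} (hA : A ∈ fam P B0 T)
    (hp : p ∈ PS P T) (hpA : p ∉ A) :
    insert p A ∈ fam P B0 T ↔ ∑ x ∈ A, Eb P T x + Eb P T p ≤ B0 := by
  rw [mem_fam, Finset.sum_insert hpA, add_comm]
  constructor
  · exact fun h => h.2
  · exact fun h => ⟨Finset.insert_subset hp (mem_fam.mp hA).1, h⟩

end Cls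

open Cls

theorem Cn_one (P : Par) (B0 : ℕ) (r : ℝ) (F : ℕ → ℝ) (T : ℝ) (hT : 10 ≤ T) :
    Cn P B0 r F T 1 = ∑ q ∈ prs P B0 T, (ae P r F T q.1) ^ 2 * (ae P r F T q.2) ^ 2 := by
  rw [Cn_Sol]
  have hkey : ∀ z : (Finset ℕ × Finset ℕ) × (Finset ℕ × Finset ℕ),
      z ∈ Sol P B0 T 1 ↔ z.1 ∈ prs P B0 T ∧ z.2 = z.1 := by
    intro z
    have h2 := mem_Sol_pow (P := P) (B0 := B0) (T := T) (p := 2) (k := 0) Nat.prime_two (z := z)
    rw [pow_zero] at h2
    rw [h2]
    constructor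
    · rintro ⟨⟨h1, h2⟩, h3⟩
      refine ⟨h1, ?_⟩
      have d1 := (mem_prs.mp h1).2
      have d2 := (mem_prs.mp h2).2
      have e1 : ∀ x, ic z.2.1 x = ic z.1.1 x ∧ ic z.2.2 x = ic z.1.2 x := by
        intro x
        have a1 := disj_ic d1 x
        have a2 := disj_ic d2 x
        have a3 := h3 x
        have : (if x = 2 then 0 else 0) = 0 := by split_ifs <;> rfl
        rw [this] at a3
        omega
      exact Prod.ext (ext_ic fun x => (e1 x).1) (ext_ic fun x => (e1 x).2)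
    · rintro ⟨h1, h2⟩
      rw [h2]
      refine ⟨⟨h1, h1⟩, fun x => ?_⟩
      have : (if x = 2 then 0 else 0) = 0 := by split_ifs <;> rfl
      rw [this]
      omega
  apply Finset.sum_nbij' (fun z => z.1) (fun q => (q, q))
  · intro z hz
    exact ((hkey z).mp hz).1
  · intro q hq
    exact (hkey _).mpr ⟨hq, rfl⟩
  · intro z hz
    have := ((hkey z).mp hz).2
    exact Prod.ext rfl this.symm
  · intro q _
    rfl
  · intro z hz
    rw [((hkey z).mp hz).2]
    ring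

theorem Cn_prime (P : Par) (B0 : ℕ) (r : ℝ) (F : ℕ → ℝ) (T : ℝ) (hT : 10 ≤ T) (p : ℕ)
    (hp : p ∈ PS P T) :
    Cn P B0 r F T p = 2 * ∑ q ∈ (prs P B0 T).filter (fun q => p ∉ q.1 ∧ p ∉ q.2 ∧
      ∑ x ∈ q.2, Eb P T x + Eb P T p ≤ B0),
      (ae P r F T q.1) ^ 2 * (ae P r F T q.2 * ae P r F T (insert p q.2)) := by
  have hpp : p.Prime := prime_PS hp
  rw [Cn_Sol, ← Finset.sum_filter_add_sum_filter_not (Sol P B0 T p) (fun z => p ∈ z.1.2), two_mul]
  have hmem : ∀ z, z ∈ Sol P B0 T p ↔ (z.1 ∈ prs P B0 T ∧ z.2 ∈ prs P B0 T) ∧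
      ∀ x, ic z.1.2 x + ic z.2.1 x = (if x = p then 1 else 0) + (ic z.1.1 x + ic z.2.2 x) := by
    intro z
    have h2 := mem_Sol_pow (P := P) (B0 := B0) (T := T) (p := p) (k := 1) hpp (z := z)
    rwa [pow_one] at h2
  congr 1
  · -- `p ∈ B`
    have hkey : ∀ z, z ∈ Sol P B0 T p → p ∈ z.1.2 →
        z.1 = (z.2.1, insert p z.2.2) ∧ p ∉ z.2.1 ∧ p ∉ z.2.2 := by
      intro z hz hpz
      obtain ⟨⟨h1, h2⟩, h3⟩ := (hmem z).mp hz
      have d1 := (mem_prs.mp h1).2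
      have d2 := (mem_prs.mp h2).2
      have ep : ic z.2.1 p = 0 ∧ ic z.2.2 p = 0 := by
        have a1 := disj_ic d1 p
        have a2 := disj_ic d2 p
        have a3 := h3 p
        have a4 := ic_one.mpr hpz
        rw [if_pos rfl] at a3
        omega
      have hn2 : p ∉ z.2.2 := ic_zero.mp ep.2
      refine ⟨Prod.ext (ext_ic fun x => ?_) (ext_ic fun x => ?_), ic_zero.mp ep.1, hn2⟩
      · have a1 := disj_ic d1 x
        have a2 := disj_ic d2 x
        have a3 := h3 x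
        by_cases hx : x = p
        · subst hx
          have a4 := ic_one.mpr hpz
          simp only
          omega
        · rw [if_neg hx] at a3
          simp only
          omega
      · have a1 := disj_ic d1 x
        have a2 := disj_ic d2 x
        have a3 := h3 x
        simp only
        rw [ic_insert _ _ _ hn2]
        by_cases hx : x = p
        · subst hx
          have a4 := ic_one.mpr hpz
          rw [if_pos rfl] at *
          omega
        · rw [if_neg hx] at *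
          omega
    apply Finset.sum_nbij' (fun z => z.2) (fun q => ((q.1, insert p q.2), q))
    · intro z hz
      obtain ⟨hz1, hz2⟩ := Finset.mem_filter.mp hz
      obtain ⟨k1, k2, k3⟩ := hkey z hz1 hz2
      obtain ⟨⟨h1, h2⟩, h3⟩ := (hmem z).mp hz1
      refine Finset.mem_filter.mpr ⟨h2, k2, k3, ?_⟩
      have hf : insert p z.2.2 ∈ fam P B0 T := by
        have := (mem_prs.mp h1).1.2
        rwa [k1] at this
      exact (fam_insert (mem_prs.mp h2).1.2 hp k3).mp hf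
    · intro q hq
      obtain ⟨h1, h2, h3, h4⟩ := Finset.mem_filter.mp hq
      obtain ⟨⟨a1, a2⟩, a3⟩ := mem_prs.mp h1
      refine Finset.mem_filter.mpr ⟨(hmem _).mpr ⟨⟨?_, h1⟩, fun x => ?_⟩, ?_⟩
      · refine mem_prs.mpr ⟨⟨a1, (fam_insert a2 hp h3).mpr h4⟩, ?_⟩
        simp only
        rw [Finset.disjoint_insert_right]
        exact ⟨h2, a3⟩
      · simp only
        rw [ic_insert _ _ _ h3]
        omega
      · simp
    · intro z hz
      obtain ⟨hz1, hz2⟩ := Finset.mem_filter.mp hz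
      obtain ⟨k1, k2, k3⟩ := hkey z hz1 hz2
      exact Prod.ext k1.symm rfl
    · intro q _
      rfl
    · intro z hz
      obtain ⟨hz1, hz2⟩ := Finset.mem_filter.mp hz
      obtain ⟨k1, k2, k3⟩ := hkey z hz1 hz2
      rw [k1]
      ring
  · -- `p ∉ B`
    have hkey : ∀ z, z ∈ Sol P B0 T p → p ∉ z.1.2 →
        z.2 = (insert p z.1.1, z.1.2) ∧ p ∉ z.1.1 := by
      intro z hz hpz
      obtain ⟨⟨h1, h2⟩, h3⟩ := (hmem z).mp hz
      have d1 := (mem_prs.mp h1).2
      have d2 := (mem_prs.mp h2).2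
      have ep : ic z.1.1 p = 0 := by
        have a1 := disj_ic d1 p
        have a2 := disj_ic d2 p
        have a3 := h3 p
        have a4 := ic_zero.mpr hpz
        rw [if_pos rfl] at a3
        omega
      have hn2 : p ∉ z.1.1 := ic_zero.mp ep
      refine ⟨Prod.ext (ext_ic fun x => ?_) (ext_ic fun x => ?_), hn2⟩
      · have a1 := disj_ic d1 x
        have a2 := disj_ic d2 x
        have a3 := h3 x
        simp only
        rw [ic_insert _ _ _ hn2]
        by_cases hx : x = p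
        · subst hx
          have a4 := ic_zero.mpr hpz
          rw [if_pos rfl] at *
          omega
        · rw [if_neg hx] at *
          omega
      · have a1 := disj_ic d1 x
        have a2 := disj_ic d2 x
        have a3 := h3 x
        by_cases hx : x = p
        · subst hx
          have a4 := ic_zero.mpr hpz
          rw [if_pos rfl] at *
          simp only
          omega
        · rw [if_neg hx] at *
          simp only
          omega
    apply Finset.sum_nbij' (fun z => (z.1.2, z.1.1)) (fun q => ((q.2, q.1), (insert p q.2, q.1)))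
    · intro z hz
      obtain ⟨hz1, hz2⟩ := Finset.mem_filter.mp hz
      obtain ⟨k1, k2⟩ := hkey z hz1 hz2
      obtain ⟨⟨h1, h2⟩, h3⟩ := (hmem z).mp hz1
      refine Finset.mem_filter.mpr ⟨prs_swap h1, hz2, k2, ?_⟩
      have hf : insert p z.1.1 ∈ fam P B0 T := by
        have := (mem_prs.mp h2).1.1
        rwa [k1] at this
      exact (fam_insert (mem_prs.mp h1).1.1 hp k2).mp hf
    · intro q hq
      obtain ⟨h1, h2, h3, h4⟩ := Finset.mem_filter.mp hq
      obtain ⟨⟨a1, a2⟩, a3⟩ := mem_prs.mp h1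
      refine Finset.mem_filter.mpr ⟨(hmem _).mpr ⟨⟨prs_swap h1, ?_⟩, fun x => ?_⟩, ?_⟩
      · refine mem_prs.mpr ⟨⟨(fam_insert a2 hp h3).mpr h4, a1⟩, ?_⟩
        simp only
        rw [Finset.disjoint_insert_left]
        exact ⟨h2, a3.symm⟩
      · simp only
        rw [ic_insert _ _ _ h3]
        omega
      · exact h2
    · intro z hz
      obtain ⟨hz1, hz2⟩ := Finset.mem_filter.mp hz
      obtain ⟨k1, k2⟩ := hkey z hz1 hz2
      exact Prod.ext rfl k1.symm
    · intro q _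
      rfl
    · intro z hz
      obtain ⟨hz1, hz2⟩ := Finset.mem_filter.mp hz
      obtain ⟨k1, k2⟩ := hkey z hz1 hz2
      rw [k1]
      ring

theorem Cn_prime_sq (P : Par) (B0 : ℕ) (r : ℝ) (F : ℕ → ℝ) (T : ℝ) (hT : 10 ≤ T) (p : ℕ)
    (hp : p ∈ PS P T) :
    |Cn P B0 r F T (p ^ 2)| ≤ ∑ q ∈ (prs P B0 T).filter (fun q => p ∉ q.1 ∧ p ∉ q.2),
      |ae P r F T q.1 * ae P r F T (insert p q.1) * (ae P r F T q.2 * ae P r F T (insert p q.2))| :=
  by
  have hpp : p.Prime := prime_PS hp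
  rw [Cn_Sol]
  refine (Finset.abs_sum_le_sum_abs _ _).trans ?_
  have hkey : ∀ z, z ∈ Sol P B0 T (p ^ 2) →
      z.1.2 = insert p z.2.2 ∧ z.2.1 = insert p z.1.1 ∧ p ∉ z.1.1 ∧ p ∉ z.2.2 := by
    intro z hz
    obtain ⟨⟨h1, h2⟩, h3⟩ := (mem_Sol_pow hpp).mp hz
    have d1 := (mem_prs.mp h1).2
    have d2 := (mem_prs.mp h2).2
    have ep : ic z.1.1 p = 0 ∧ ic z.2.2 p = 0 ∧ ic z.1.2 p = 1 ∧ ic z.2.1 p = 1 := by
      have a1 := disj_ic d1 p
      have a2 := disj_ic d2 p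
      have a3 := h3 p
      rw [if_pos rfl] at a3
      have a4 := ic_le z.1.2 p
      have a5 := ic_le z.2.1 p
      omega
    have hn1 : p ∉ z.1.1 := ic_zero.mp ep.1
    have hn2 : p ∉ z.2.2 := ic_zero.mp ep.2.1
    refine ⟨ext_ic fun x => ?_, ext_ic fun x => ?_, hn1, hn2⟩
    · rw [ic_insert _ _ _ hn2]
      have a1 := disj_ic d1 x
      have a2 := disj_ic d2 x
      have a3 := h3 x
      by_cases hx : x = p
      · subst hx
        rw [if_pos rfl] at *
        omega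
      · rw [if_neg hx] at *
        omega
    · rw [ic_insert _ _ _ hn1]
      have a1 := disj_ic d1 x
      have a2 := disj_ic d2 x
      have a3 := h3 x
      by_cases hx : x = p
      · subst hx
        rw [if_pos rfl] at *
        omega
      · rw [if_neg hx] at *
        omega
  have hsub : ∀ z ∈ Sol P B0 T (p ^ 2), (z.1.1, z.2.2) ∈
      (prs P B0 T).filter (fun q => p ∉ q.1 ∧ p ∉ q.2) := by
    intro z hz
    obtain ⟨k1, k2, k3, k4⟩ := hkey z hz
    obtain ⟨⟨h1, h2⟩, h3⟩ := (mem_Sol_pow hpp).mp hz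
    obtain ⟨⟨a1, a2⟩, a3⟩ := mem_prs.mp h1
    obtain ⟨⟨b1, b2⟩, b3⟩ := mem_prs.mp h2
    refine Finset.mem_filter.mpr ⟨mem_prs.mpr ⟨⟨a1, b2⟩, ?_⟩, k3, k4⟩
    rw [k1] at a3
    exact (Finset.disjoint_insert_right.mp a3).2
  have hinj : ∀ z ∈ Sol P B0 T (p ^ 2), ∀ z' ∈ Sol P B0 T (p ^ 2),
      (z.1.1, z.2.2) = (z'.1.1, z'.2.2) → z = z' := by
    intro z hz z' hz' h
    obtain ⟨k1, k2, k3, k4⟩ := hkey z hz
    obtain ⟨l1, l2, l3, l4⟩ := hkey z' hz'
    have e1 : z.1.1 = z'.1.1 := (Prod.mk.inj h).1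
    have e2 : z.2.2 = z'.2.2 := (Prod.mk.inj h).2
    refine Prod.ext (Prod.ext e1 ?_) (Prod.ext ?_ e2)
    · rw [k1, l1, e2]
    · rw [k2, l2, e1]
  calc ∑ z ∈ Sol P B0 T (p ^ 2), |ae P r F T z.1.1 * ae P r F T z.1.2 *
        (ae P r F T z.2.1 * ae P r F T z.2.2)|
      = ∑ z ∈ Sol P B0 T (p ^ 2), (fun q : Finset ℕ × Finset ℕ =>
          |ae P r F T q.1 * ae P r F T (insert p q.1) *
            (ae P r F T q.2 * ae P r F T (insert p q.2))|) (z.1.1, z.2.2) := by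
        apply Finset.sum_congr rfl
        intro z hz
        obtain ⟨k1, k2, k3, k4⟩ := hkey z hz
        simp only
        rw [k1, k2]
        congr 1
        ring
    _ = ∑ q ∈ (Sol P B0 T (p ^ 2)).image (fun z => (z.1.1, z.2.2)),
          |ae P r F T q.1 * ae P r F T (insert p q.1) *
            (ae P r F T q.2 * ae P r F T (insert p q.2))| := by
        rw [Finset.sum_image]
        intro z hz z' hz' h
        exact hinj z hz z' hz' h
    _ ≤ _ := by
        apply Finset.sum_le_sum_of_subset_of_nonneg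
        · intro q hq
          obtain ⟨z, hz, rfl⟩ := Finset.mem_image.mp hq
          exact hsub z hz
        · intro q _ _
          exact abs_nonneg _

theorem Cn_zero (P : Par) (B0 : ℕ) (r : ℝ) (F : ℕ → ℝ) (T : ℝ) (hT : 10 ≤ T) (p k : ℕ)
    (hp : p.Prime) (hk : 1 ≤ k) (h : p ∉ PS P T ∨ 3 ≤ k) : Cn P B0 r F T (p ^ k) = 0 := by
  rw [Cn_Sol]
  have : Sol P B0 T (p ^ k) = ∅ := by
    rw [Finset.eq_empty_iff_forall_notMem]
    intro z hz
    obtain ⟨⟨h1, h2⟩, h3⟩ := (mem_Sol_pow hp).mp hz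
    have a3 := h3 p
    rw [if_pos rfl] at a3
    rcases h with h | h
    · have b1 : ic z.1.2 p = 0 := ic_zero.mpr
        (fun hh => h ((mem_fam.mp (mem_prs.mp h1).1.2).1 hh))
      have b2 : ic z.2.1 p = 0 := ic_zero.mpr
        (fun hh => h ((mem_fam.mp (mem_prs.mp h2).1.1).1 hh))
      omega
    · have a4 := ic_le z.1.2 p
      have a5 := ic_le z.2.1 p
      omega
  rw [this, Finset.sum_empty]

end LG
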